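import Mathlib

/-!
Positive definite matrices: powers and determinants.
-/

open Matrix
open scoped MatrixOrder ComplexOrder Matrix.Norms.L2Operator NNReal

namespace K4H30.DI

variable {n : Type} [Fintype n] [DecidableEq n]

theorem rpow_spec {A : Matrix n n ℂ} (hA : A.PosSemidef) (r : ℝ) :
    A ^ r = (hA.1.eigenvectorUnitary : Matrix n n ℂ) *
      diagonal (fun i => (((hA.1.eigenvalues i) ^ r : ℝ) : ℂ)) *
      (star (hA.1.eigenvectorUnitary : Matrix n n ℂ)) := by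
  have h1 : A ^ r = cfc (fun x : ℝ => x ^ r) A := CFC.rpow_eq_cfc_real (ha := hA.nonneg)
  rw [h1, IsHermitian.cfc_eq hA.1, IsHermitian.cfc]
  rfl

theorem spec {A : Matrix n n ℂ} (hA : A.IsHermitian) :
    A = (hA.eigenvectorUnitary : Matrix n n ℂ) *
      diagonal (fun i => ((hA.eigenvalues i : ℝ) : ℂ)) *
      (star (hA.eigenvectorUnitary : Matrix n n ℂ)) := by
  conv_lhs => rw [hA.spectral_theorem]
  rfl

/-- real determinant -/
noncomputable def d (A : Matrix n n ℂ) : ℝ := A.det.re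

theorem det_eq {A : Matrix n n ℂ} (hA : A.PosSemidef) : A.det = (d A : ℂ) := by
  have h := hA.det_nonneg
  rw [Complex.le_def] at h
  apply Complex.ext
  · simp [d]
  · simpa using h.2.symm

theorem d_pos {A : Matrix n n ℂ} (hA : A.PosDef) : 0 < d A := by
  have h := hA.det_pos
  rw [Complex.lt_def] at h
  simpa [d] using h.1

theorem d_nonneg {A : Matrix n n ℂ} (hA : A.PosSemidef) : 0 ≤ d A := by
  have h := hA.det_nonneg
  rw [Complex.le_def] at h
  simpa [d] using h.1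

theorem d_of_eq {A : Matrix n n ℂ} {x : ℝ} (h : A.det = (x : ℂ)) : d A = x := by
  simp [d, h]

/-- determinant of a unitary conjugate of a real diagonal matrix -/
theorem det_conj (U : unitaryGroup n ℂ) (y : n → ℝ) :
    ((U : Matrix n n ℂ) * diagonal (fun i => ((y i : ℝ) : ℂ)) * star (U : Matrix n n ℂ)).det =
      ((∏ i, y i : ℝ) : ℂ) := by
  rw [det_mul_comm, ← mul_assoc]
  have : star (U : Matrix n n ℂ) * (U : Matrix n n ℂ) = 1 := U.2.1
  rw [this, one_mul, det_diagonal]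
  push_cast
  rfl

theorem one_conj (U : unitaryGroup n ℂ) :
    (U : Matrix n n ℂ) * diagonal (fun _ => (1 : ℂ)) * star (U : Matrix n n ℂ) = 1 := by
  have : (U : Matrix n n ℂ) * star (U : Matrix n n ℂ) = 1 := U.2.2
  rw [diagonal_one, mul_one, this]

theorem add_conj (U : unitaryGroup n ℂ) (y z : n → ℝ) :
    (U : Matrix n n ℂ) * diagonal (fun i => ((y i : ℝ) : ℂ)) * star (U : Matrix n n ℂ) +
      (U : Matrix n n ℂ) * diagonal (fun i => ((z i : ℝ) : ℂ)) * star (U : Matrix n n ℂ) =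
    (U : Matrix n n ℂ) * diagonal (fun i => ((y i + z i : ℝ) : ℂ)) * star (U : Matrix n n ℂ) := by
  rw [← add_mul, ← mul_add, diagonal_add]
  simp

theorem d_spec {A : Matrix n n ℂ} (hA : A.PosSemidef) : d A = ∏ i, hA.1.eigenvalues i := by
  apply d_of_eq
  conv_lhs => rw [spec hA.1]
  rw [det_conj]

theorem d_rpow {A : Matrix n n ℂ} (hA : A.PosSemidef) (r : ℝ) : d (A ^ r) = (d A) ^ r := by
  rw [d_spec hA, ← Real.finsetProd_rpow _ _ fun i _ => hA.eigenvalues_nonneg i]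
  apply d_of_eq
  rw [rpow_spec hA, det_conj]

theorem d_one_add {T : Matrix n n ℂ} (hT : T.PosSemidef) :
    d (1 + T) = ∏ i, (1 + hT.1.eigenvalues i) := by
  apply d_of_eq
  have h1 : (1 : Matrix n n ℂ) = (hT.1.eigenvectorUnitary : Matrix n n ℂ) *
      diagonal (fun _ => ((1 : ℝ) : ℂ)) * (star (hT.1.eigenvectorUnitary : Matrix n n ℂ)) := by
    have := one_conj hT.1.eigenvectorUnitary
    simpa using this.symm
  conv_lhs => rw [spec hT.1, h1, add_conj]
  rw [det_conj]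

theorem one_le_d_one_add {T : Matrix n n ℂ} (hT : T.PosSemidef) : 1 ≤ d (1 + T) := by
  rw [d_one_add hT]
  calc (1 : ℝ) = ∏ _i : n, (1 : ℝ) := by simp
    _ ≤ ∏ i, (1 + hT.1.eigenvalues i) :=
      Finset.prod_le_prod (fun _ _ => zero_le_one) fun i _ => by
        linarith [hT.eigenvalues_nonneg i]

theorem posDef_rpow {A : Matrix n n ℂ} (hA : A.PosDef) (r : ℝ) : (A ^ r).PosDef := by
  rw [← isStrictlyPositive_iff_posDef] at hA ⊢
  exact hA.rpow A r

theorem posSemidef_rpow (A : Matrix n n ℂ) (r : ℝ) : (A ^ r).PosSemidef :=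
  nonneg_iff_posSemidef.1 CFC.rpow_nonneg

theorem unit_of_posDef {A : Matrix n n ℂ} (hA : A.PosDef) : IsUnit A :=
  (isStrictlyPositive_iff_posDef.2 hA).isUnit

theorem rpow_mul_rpow {A : Matrix n n ℂ} (hA : A.PosDef) (r s : ℝ) :
    A ^ r * A ^ s = A ^ (r + s) := (CFC.rpow_add (unit_of_posDef hA)).symm

theorem rpow_one' {A : Matrix n n ℂ} (hA : A.PosSemidef) : A ^ (1 : ℝ) = A :=
  CFC.rpow_one A hA.nonneg

theorem rpow_zero' {A : Matrix n n ℂ} (hA : A.PosSemidef) : A ^ (0 : ℝ) = 1 :=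
  CFC.rpow_zero A hA.nonneg

theorem herm_rpow (A : Matrix n n ℂ) (r : ℝ) : (A ^ r)ᴴ = A ^ r := (posSemidef_rpow A r).1

/-- congruence by a Hermitian matrix -/
theorem psd_conj {S C : Matrix n n ℂ} (hS : S.PosSemidef) (hC : Cᴴ = C) :
    (C * S * C).PosSemidef := by
  have := hS.mul_mul_conjTranspose_same C
  rwa [hC] at this

theorem pd_conj {S C : Matrix n n ℂ} (hS : S.PosDef) (hC : C.PosDef) : (C * S * C).PosDef := by
  rw [(psd_conj hS.posSemidef hC.1).posDef_iff_isUnit]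
  exact ((unit_of_posDef hC).mul (unit_of_posDef hS)).mul (unit_of_posDef hC)

theorem le_conj {S T C : Matrix n n ℂ} (h : S ≤ T) (hC : Cᴴ = C) : C * S * C ≤ C * T * C := by
  have := star_right_conjugate_le_conjugate h C
  rwa [star_eq_conjTranspose, hC] at this

theorem pd_of_le {P Z : Matrix n n ℂ} (hP : P.PosDef) (h : P ≤ Z) : Z.PosDef := by
  have h1 : (Z - P).PosSemidef := h
  have := hP.add_posSemidef h1
  simpa using this

theorem d_mul (A B : Matrix n n ℂ) (hA : A.PosSemidef) (hB : B.PosSemidef) :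
    d (A * B) = d A * d B := by
  apply d_of_eq
  rw [det_mul, det_eq hA, det_eq hB]
  push_cast
  rfl

theorem d_conj {S C : Matrix n n ℂ} (hS : S.PosSemidef) (hC : C.PosSemidef) :
    d (C * S * C) = d S * (d C * d C) := by
  apply d_of_eq
  rw [det_mul, det_mul, det_eq hS, det_eq hC]
  push_cast
  ring

theorem half_mul_half {P : Matrix n n ℂ} (hP : P.PosDef) :
    P ^ (1 / 2 : ℝ) * P ^ (1 / 2 : ℝ) = P := by
  rw [rpow_mul_rpow hP]
  norm_num
  exact rpow_one' hP.posSemidef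

theorem half_mul_neg {P : Matrix n n ℂ} (hP : P.PosDef) :
    P ^ (1 / 2 : ℝ) * P ^ (-(1 / 2) : ℝ) = 1 := by
  rw [rpow_mul_rpow hP]
  norm_num
  exact rpow_zero' hP.posSemidef

theorem neg_mul_half {P : Matrix n n ℂ} (hP : P.PosDef) :
    P ^ (-(1 / 2) : ℝ) * P ^ (1 / 2 : ℝ) = 1 := by
  rw [rpow_mul_rpow hP]
  norm_num
  exact rpow_zero' hP.posSemidef

/-- `P + S = P^{1/2} (1 + P^{-1/2} S P^{-1/2}) P^{1/2}` -/
theorem add_fact {P : Matrix n n ℂ} (hP : P.PosDef) (S : Matrix n n ℂ) :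
    P + S = P ^ (1 / 2 : ℝ) * (1 + P ^ (-(1 / 2) : ℝ) * S * P ^ (-(1 / 2) : ℝ)) *
      P ^ (1 / 2 : ℝ) := by
  have h1 := half_mul_half hP
  have h2 := half_mul_neg hP
  have h3 := neg_mul_half hP
  have : P ^ (1 / 2 : ℝ) * (P ^ (-(1 / 2) : ℝ) * S * P ^ (-(1 / 2) : ℝ)) * P ^ (1 / 2 : ℝ) =
      (P ^ (1 / 2 : ℝ) * P ^ (-(1 / 2) : ℝ)) * S * (P ^ (-(1 / 2) : ℝ) * P ^ (1 / 2 : ℝ)) := by
    noncomm_ring
  rw [mul_add, add_mul, mul_one, h1, this, h2, h3, one_mul, mul_one]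

theorem d_add {P S : Matrix n n ℂ} (hP : P.PosDef) (hS : S.PosSemidef) :
    d (P + S) = d P * d (1 + P ^ (-(1 / 2) : ℝ) * S * P ^ (-(1 / 2) : ℝ)) := by
  have h1 : (1 + P ^ (-(1 / 2) : ℝ) * S * P ^ (-(1 / 2) : ℝ)).PosSemidef :=
    PosSemidef.one.add (psd_conj hS (herm_rpow _ _))
  rw [add_fact hP S, d_conj h1 (posSemidef_rpow _ _),
    ← d_mul _ _ (posSemidef_rpow _ _) (posSemidef_rpow _ _), half_mul_half hP]
  ring

theorem d_mono {P Z : Matrix n n ℂ} (hP : P.PosDef) (h : P ≤ Z) : d P ≤ d Z := by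
  have h1 : (Z - P).PosSemidef := h
  have h2 : Z = P + (Z - P) := by abel
  rw [h2, d_add hP h1]
  have h3 := one_le_d_one_add (psd_conj h1 (herm_rpow P (-(1 / 2))))
  nlinarith [d_pos hP]

theorem inv_anti {P Z : Matrix n n ℂ} (hP : P.PosDef) (h : P ≤ Z) : Z⁻¹ ≤ P⁻¹ := by
  rw [nonsing_inv_eq_ringInverse, nonsing_inv_eq_ringInverse]
  exact CStarAlgebra.ringInverse_le_ringInverse h (isStrictlyPositive_iff_posDef.2 hP)

theorem d_add' {P S R : Matrix n n ℂ} (hP : P.PosDef) (hR : Rᴴ = R) (hS : R * R = S) :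
    d (P + S) = d P * d (1 + R * P⁻¹ * R) := by
  have hdet : IsUnit P.det := (isUnit_iff_isUnit_det P).1 (unit_of_posDef hP)
  have h1 : P + S = P * (1 + (P⁻¹ * R) * R) := by
    rw [mul_add, mul_one, mul_assoc P⁻¹, hS, ← mul_assoc, mul_nonsing_inv _ hdet, one_mul]
  have h2 : (1 + R * P⁻¹ * R).PosSemidef := PosSemidef.one.add (psd_conj hP.inv.posSemidef hR)
  apply d_of_eq
  rw [h1, det_mul, det_one_add_mul_comm, ← mul_assoc, det_eq hP.posSemidef, det_eq h2]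
  push_cast
  rfl

theorem d_add_le {Q Z S : Matrix n n ℂ} (hQ : Q.PosDef) (hZ : Q ≤ Z) (hS : S.PosSemidef) :
    d (Z + S) * d Q ≤ d Z * d (Q + S) := by
  have hZ' := pd_of_le hQ hZ
  set R := CFC.sqrt S with hR
  have hR1 : R * R = S := CFC.sqrt_mul_sqrt_self S hS.nonneg
  have hR2 : Rᴴ = R := (nonneg_iff_posSemidef.1 (CFC.sqrt_nonneg S)).1
  rw [d_add' hZ' hR2 hR1, d_add' hQ hR2 hR1]
  have h1 : (1 + R * Z⁻¹ * R).PosDef :=
    PosDef.one.add_posSemidef (psd_conj hZ'.inv.posSemidef hR2)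
  have h2 : 1 + R * Z⁻¹ * R ≤ 1 + R * Q⁻¹ * R :=
    add_le_add_right (le_conj (inv_anti hQ hZ) hR2) 1
  have h3 := d_mono h1 h2
  have h4 := d_pos hQ
  have h5 := d_pos hZ'
  nlinarith [mul_pos h4 h5]

end K4H30.DI
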