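import Pool.Agent.K4H30.DI.Basic

/-!
The asymmetric distance `D(P, Q) = inf {log det Z - log det P : Z ≥ P, Z ≥ Q}`.
-/

open Matrix
open scoped MatrixOrder ComplexOrder Matrix.Norms.L2Operator NNReal

namespace K4H30.DI

variable {n : Type} [Fintype n] [DecidableEq n]

/-- the set of the values `log det Z - log det P`, `Z ≥ P, Q` -/
def SS (P Q : Matrix n n ℂ) : Set ℝ :=
  {x | ∃ Z, P ≤ Z ∧ Q ≤ Z ∧ x = Real.log (d Z) - Real.log (d P)}

/-- the distance -/
noncomputable def D (P Q : Matrix n n ℂ) : ℝ := sInf (SS P Q)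

theorem SS_nonempty {P Q : Matrix n n ℂ} (hP : P.PosDef) (hQ : Q.PosDef) : (SS P Q).Nonempty :=
  ⟨_, P + Q, le_add_of_nonneg_right hQ.posSemidef.nonneg,
    le_add_of_nonneg_left hP.posSemidef.nonneg, rfl⟩

theorem SS_nonneg {P Q : Matrix n n ℂ} (hP : P.PosDef) : ∀ x ∈ SS P Q, 0 ≤ x := by
  rintro x ⟨Z, h1, -, rfl⟩
  have := Real.log_le_log (d_pos hP) (d_mono hP h1)
  linarith

theorem SS_bdd {P Q : Matrix n n ℂ} (hP : P.PosDef) : BddBelow (SS P Q) :=
  ⟨0, fun x hx => SS_nonneg hP x hx⟩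

theorem D_le {P Q Z : Matrix n n ℂ} (hP : P.PosDef) (h1 : P ≤ Z) (h2 : Q ≤ Z) :
    D P Q ≤ Real.log (d Z) - Real.log (d P) :=
  csInf_le (SS_bdd hP) ⟨Z, h1, h2, rfl⟩

theorem le_D {P Q : Matrix n n ℂ} (hP : P.PosDef) (hQ : Q.PosDef) {x : ℝ}
    (h : ∀ Z, P ≤ Z → Q ≤ Z → x ≤ Real.log (d Z) - Real.log (d P)) : x ≤ D P Q := by
  refine le_csInf (SS_nonempty hP hQ) ?_
  rintro y ⟨Z, h1, h2, rfl⟩
  exact h Z h1 h2

theorem D_congr {P Q C : Matrix n n ℂ} (hP : P.PosDef) (hQ : Q.PosDef) (hC : C.PosDef) :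
    D (C * P * C) (C * Q * C) ≤ D P Q := by
  refine le_D hP hQ fun Z h1 h2 => ?_
  refine (D_le (pd_conj hP hC) (le_conj h1 hC.1) (le_conj h2 hC.1)).trans (le_of_eq ?_)
  have hZ := pd_of_le hP h1
  rw [d_conj hZ.posSemidef hC.posSemidef, d_conj hP.posSemidef hC.posSemidef,
    Real.log_mul (d_pos hZ).ne' (mul_pos (d_pos hC) (d_pos hC)).ne',
    Real.log_mul (d_pos hP).ne' (mul_pos (d_pos hC) (d_pos hC)).ne']
  ring

theorem D_rpow {P Q : Matrix n n ℂ} (hP : P.PosDef) (hQ : Q.PosDef) {r : ℝ}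
    (hr : 0 < r) (hr1 : r ≤ 1) : D (P ^ r) (Q ^ r) ≤ r * D P Q := by
  rw [← div_le_iff₀' hr]
  refine le_D hP hQ fun Z h1 h2 => ?_
  rw [div_le_iff₀' hr]
  have hI : r ∈ Set.Icc (0 : ℝ) 1 := ⟨hr.le, hr1⟩
  refine (D_le (posDef_rpow hP r) (CFC.rpow_le_rpow hI h1) (CFC.rpow_le_rpow hI h2)).trans
    (le_of_eq ?_)
  have hZ := pd_of_le hP h1
  rw [d_rpow hZ.posSemidef, d_rpow hP.posSemidef, Real.log_rpow (d_pos hZ),
    Real.log_rpow (d_pos hP)]
  ring

theorem D_triangle {P Q R : Matrix n n ℂ} (hP : P.PosDef) (hQ : Q.PosDef) (hR : R.PosDef) :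
    D P R ≤ D P Q + D Q R := by
  have key : ∀ Z₁, P ≤ Z₁ → Q ≤ Z₁ → ∀ Z₂, Q ≤ Z₂ → R ≤ Z₂ →
      D P R ≤ (Real.log (d Z₁) - Real.log (d P)) + (Real.log (d Z₂) - Real.log (d Q)) := by
    intro Z₁ h1 h2 Z₂ h3 h4
    have hS : (Z₂ - Q).PosSemidef := h3
    have hZ1 := pd_of_le hP h1
    have hZ2 := pd_of_le hQ h3
    have hle : d (Z₁ + (Z₂ - Q)) * d Q ≤ d Z₁ * d (Q + (Z₂ - Q)) := d_add_le hQ h2 hS
    have hQ2 : Q + (Z₂ - Q) = Z₂ := by abel
    rw [hQ2] at hle
    have hZ : (Z₁ + (Z₂ - Q)).PosDef := hZ1.add_posSemidef hS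
    have h5 : P ≤ Z₁ + (Z₂ - Q) := h1.trans (le_add_of_nonneg_right hS.nonneg)
    have h6 : R ≤ Z₁ + (Z₂ - Q) := by
      have h7 : Z₁ + (Z₂ - Q) = Z₂ + (Z₁ - Q) := by abel
      have h8 : (Z₁ - Q).PosSemidef := h2
      rw [h7]
      exact h4.trans (le_add_of_nonneg_right h8.nonneg)
    refine (D_le hP h5 h6).trans ?_
    have h9 := Real.log_le_log (mul_pos (d_pos hZ) (d_pos hQ)) hle
    rw [Real.log_mul (d_pos hZ).ne' (d_pos hQ).ne', Real.log_mul (d_pos hZ1).ne'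
      (d_pos hZ2).ne'] at h9
    linarith
  have h1 : ∀ Z₂, Q ≤ Z₂ → R ≤ Z₂ →
      D P R - (Real.log (d Z₂) - Real.log (d Q)) ≤ D P Q := by
    intro Z₂ h3 h4
    refine le_D hP hQ fun Z₁ h5 h6 => ?_
    have := key Z₁ h5 h6 Z₂ h3 h4
    linarith
  have h2 : D P R - D P Q ≤ D Q R := by
    refine le_D hQ hR fun Z₂ h3 h4 => ?_
    have := h1 Z₂ h3 h4
    linarith
  linarith

/-- the self-bounding argument -/
theorem D_main {H B : Matrix n n ℂ} (hH : H.PosDef) (hB : B.PosDef) {q : ℝ} (hq : 0 < q)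
    (hq1 : q < 1) :
    D (H ^ (1 - q)) (B ^ (2 * q)) ≤ D H ((B * H * B) ^ q) := by
  have h1q : 0 < 1 - q := by linarith
  set X := B ^ (2 * q / (1 - q)) with hX
  have hXp : X.PosDef := posDef_rpow hB _
  have hBXB : B * X * B = B ^ (2 / (1 - q)) := by
    have e1 : B = B ^ (1 : ℝ) := (rpow_one' hB.posSemidef).symm
    calc B * X * B = B ^ (1 : ℝ) * B ^ (2 * q / (1 - q)) * B ^ (1 : ℝ) := by
          rw [← e1]
      _ = B ^ (1 + 2 * q / (1 - q) + 1 : ℝ) := by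
          rw [rpow_mul_rpow hB, rpow_mul_rpow hB]
      _ = B ^ (2 / (1 - q)) := by
          congr 1
          field_simp
          ring
  have hfix : (B * X * B) ^ q = X := by
    rw [hBXB, CFC.rpow_rpow B _ _ (by positivity) (isStrictlyPositive_iff_posDef.2 hB), hX]
    congr 1
    field_simp
  have hXpow : X ^ (1 - q) = B ^ (2 * q) := by
    rw [hX, CFC.rpow_rpow B _ _ (by positivity) (isStrictlyPositive_iff_posDef.2 hB)]
    congr 1
    field_simp
  have hf : ((B * H * B) ^ q).PosDef := posDef_rpow (pd_conj hH hB) q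
  have h1 : D H X ≤ D H ((B * H * B) ^ q) + D ((B * H * B) ^ q) X := D_triangle hH hf hXp
  have h2 : D ((B * H * B) ^ q) X ≤ q * D H X := by
    have h3 := D_rpow (pd_conj hH hB) (pd_conj hXp hB) hq hq1.le
    rw [hfix] at h3
    exact h3.trans (mul_le_mul_of_nonneg_left (D_congr hH hXp hB) hq.le)
  have h3 : D (H ^ (1 - q)) (X ^ (1 - q)) ≤ (1 - q) * D H X :=
    D_rpow hH hXp h1q (by linarith)
  rw [hXpow] at h3
  linarith

/-- upper bound for `D` -/
theorem D_le_sum {P Q : Matrix n n ℂ} (hP : P.PosDef) (U : unitaryGroup n ℂ) (y : n → ℝ)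
    (hQ : Q = P ^ (1 / 2 : ℝ) * ((U : Matrix n n ℂ) * diagonal (fun i => ((y i : ℝ) : ℂ)) *
      star (U : Matrix n n ℂ)) * P ^ (1 / 2 : ℝ)) :
    D P Q ≤ ∑ i, Real.log (max 1 (y i)) := by
  have hmono : ∀ y z : n → ℝ, (∀ i, y i ≤ z i) →
      (U : Matrix n n ℂ) * diagonal (fun i => ((y i : ℝ) : ℂ)) * star (U : Matrix n n ℂ) ≤
      (U : Matrix n n ℂ) * diagonal (fun i => ((z i : ℝ) : ℂ)) * star (U : Matrix n n ℂ) := by
    intro y z h
    refine star_right_conjugate_le_conjugate ?_ _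
    rw [le_iff, diagonal_sub]
    refine PosSemidef.diagonal fun i => ?_
    simp only [Pi.zero_apply]
    rw [← Complex.ofReal_sub]
    exact_mod_cast sub_nonneg.2 (h i)
  set m : n → ℝ := fun i => max 1 (y i) with hm
  set Z' := (U : Matrix n n ℂ) * diagonal (fun i => ((m i : ℝ) : ℂ)) * star (U : Matrix n n ℂ)
    with hZ'
  have h1 : (1 : Matrix n n ℂ) ≤ Z' := by
    have := hmono (fun _ => 1) m fun i => le_max_left _ _
    simpa [one_conj] using this
  have h2 := hmono y m fun i => le_max_right _ _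
  have hherm := herm_rpow P (1 / 2)
  have h3 : P ≤ P ^ (1 / 2 : ℝ) * Z' * P ^ (1 / 2 : ℝ) := by
    have := le_conj h1 hherm
    rwa [mul_one, half_mul_half hP] at this
  have h4 : Q ≤ P ^ (1 / 2 : ℝ) * Z' * P ^ (1 / 2 : ℝ) := by
    rw [hQ]
    exact le_conj h2 hherm
  refine (D_le hP h3 h4).trans (le_of_eq ?_)
  have hZp : Z'.PosDef := pd_of_le PosDef.one h1
  have hd : d Z' = ∏ i, m i := d_of_eq (det_conj U m)
  rw [d_conj hZp.posSemidef (posSemidef_rpow _ _),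
    ← d_mul _ _ (posSemidef_rpow _ _) (posSemidef_rpow _ _), half_mul_half hP,
    Real.log_mul (d_pos hZp).ne' (d_pos hP).ne', hd, Real.log_prod]
  · ring
  · intro i _
    have : (1 : ℝ) ≤ m i := le_max_left _ _
    positivity

/-- determinant of a matrix above `1` and above a positive diagonal matrix -/
theorem prod_le_d {Z : Matrix n n ℂ} {y : n → ℝ} (hy : ∀ i, 0 < y i) (h1 : 1 ≤ Z)
    (h2 : diagonal (fun i => ((y i : ℝ) : ℂ)) ≤ Z) : ∏ i, max 1 (y i) ≤ d Z := by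
  have hZ : Z.PosDef := pd_of_le PosDef.one h1
  have hY : (diagonal (fun i => ((y i : ℝ) : ℂ))).PosDef := by
    refine PosDef.diagonal fun i => ?_
    exact_mod_cast hy i
  have hV1 : Z⁻¹ ≤ 1 := by
    have := inv_anti PosDef.one h1
    rwa [inv_one] at this
  have hYinv : (diagonal (fun i => ((y i : ℝ) : ℂ)))⁻¹ = diagonal (fun i => (((y i)⁻¹ : ℝ) : ℂ)) := by
    apply inv_eq_right_inv
    rw [diagonal_mul_diagonal, ← diagonal_one]
    congr 1
    funext i
    rw [← Complex.ofReal_mul, mul_inv_cancel₀ (hy i).ne']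
    simp
  have hV2 : Z⁻¹ ≤ diagonal (fun i => (((y i)⁻¹ : ℝ) : ℂ)) := by
    have := inv_anti hY h2
    rwa [hYinv] at this
  have hVii : ∀ i, max 1 (y i) * (Z⁻¹ i i).re ≤ 1 := by
    intro i
    have a1 : (Z⁻¹ i i).re ≤ 1 := by
      have h := (show (1 - Z⁻¹).PosSemidef from hV1).diag_nonneg (i := i)
      rw [Matrix.sub_apply, one_apply_eq, Complex.le_def] at h
      simpa using h.1
    have a2 : (Z⁻¹ i i).re ≤ (y i)⁻¹ := by
      have h := (show (diagonal (fun i => (((y i)⁻¹ : ℝ) : ℂ)) - Z⁻¹).PosSemidef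
        from hV2).diag_nonneg (i := i)
      rw [Matrix.sub_apply, diagonal_apply_eq, Complex.le_def] at h
      simpa using h.1
    rcases max_cases 1 (y i) with ⟨h, _⟩ | ⟨h, _⟩
    · rw [h, one_mul]
      exact a1
    · rw [h]
      calc y i * (Z⁻¹ i i).re ≤ y i * (y i)⁻¹ := mul_le_mul_of_nonneg_left a2 (hy i).le
        _ = 1 := mul_inv_cancel₀ (hy i).ne'
  -- the matrix `D^{1/2} Z⁻¹ D^{1/2}`
  set m : n → ℝ := fun i => max 1 (y i) with hm
  have hmpos : ∀ i, 0 < m i := fun i => lt_of_lt_of_le one_pos (le_max_left _ _)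
  set E : Matrix n n ℂ := diagonal (fun i => ((Real.sqrt (m i) : ℝ) : ℂ)) with hE
  have hEp : E.PosDef := by
    refine PosDef.diagonal fun i => ?_
    exact_mod_cast Real.sqrt_pos.2 (hmpos i)
  have hdE : d E * d E = ∏ i, m i := by
    have : d E = ∏ i, Real.sqrt (m i) := by
      apply d_of_eq
      rw [hE, det_diagonal]
      push_cast
      rfl
    rw [this, ← Finset.prod_mul_distrib]
    exact Finset.prod_congr rfl fun i _ => Real.mul_self_sqrt (hmpos i).le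
  have hRp : (E * Z⁻¹ * E).PosDef := pd_conj hZ.inv hEp
  have hRtr : (∑ i, hRp.1.eigenvalues i) ≤ Fintype.card n := by
    have h := hRp.1.trace_eq_sum_eigenvalues
    have h3 : ((∑ i, hRp.1.eigenvalues i : ℝ) : ℂ) = ∑ i, (m i : ℂ) * Z⁻¹ i i := by
      push_cast
      rw [show (∑ i, ((hRp.1.eigenvalues i : ℝ) : ℂ)) = (E * Z⁻¹ * E).trace from h.symm, trace]
      refine Finset.sum_congr rfl fun i _ => ?_
      rw [diag_apply, hE, mul_diagonal, diagonal_mul]
      have : ((Real.sqrt (m i) : ℝ) : ℂ) * ((Real.sqrt (m i) : ℝ) : ℂ) = (m i : ℂ) := by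
        rw [← Complex.ofReal_mul, Real.mul_self_sqrt (hmpos i).le]
      rw [← this]
      ring
    have h4 : ∑ i, hRp.1.eigenvalues i = ∑ i, m i * (Z⁻¹ i i).re := by
      have := congrArg Complex.re h3
      rw [Complex.ofReal_re, Complex.re_sum] at this
      rw [this]
      refine Finset.sum_congr rfl fun i _ => ?_
      simp
    rw [h4]
    calc ∑ i, m i * (Z⁻¹ i i).re ≤ ∑ _i : n, (1 : ℝ) := Finset.sum_le_sum fun i _ => hVii i
      _ = Fintype.card n := by simp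
  have hdR : d (E * Z⁻¹ * E) ≤ 1 := by
    rw [d_spec hRp.posSemidef]
    calc ∏ i, hRp.1.eigenvalues i ≤ ∏ i, Real.exp (hRp.1.eigenvalues i - 1) := by
          refine Finset.prod_le_prod (fun i _ => (hRp.eigenvalues_pos i).le) fun i _ => ?_
          have := Real.add_one_le_exp (hRp.1.eigenvalues i - 1)
          linarith
      _ = Real.exp (∑ i, (hRp.1.eigenvalues i - 1)) := (Real.exp_sum _ _).symm
      _ ≤ 1 := by
          rw [Real.exp_le_one_iff, Finset.sum_sub_distrib]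
          simp only [Finset.sum_const, Finset.card_univ, nsmul_eq_mul, mul_one]
          linarith
  rw [d_conj hZ.inv.posSemidef hEp.posSemidef, hdE] at hdR
  have hdet : d Z⁻¹ * d Z = 1 := by
    rw [← d_mul _ _ hZ.inv.posSemidef hZ.posSemidef,
      nonsing_inv_mul _ ((isUnit_iff_isUnit_det Z).1 (unit_of_posDef hZ))]
    simp [d]
  have hZpos := d_pos hZ
  calc ∏ i, m i = (d Z⁻¹ * ∏ i, m i) * d Z := by
        rw [mul_comm (d Z⁻¹), mul_assoc, hdet, mul_one]
    _ ≤ 1 * d Z := mul_le_mul_of_nonneg_right hdR hZpos.le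
    _ = d Z := one_mul _

/-- lower bound for `D` -/
theorem sum_le_D {P Q : Matrix n n ℂ} (hP : P.PosDef) (hQp : Q.PosDef) (U : unitaryGroup n ℂ)
    (y : n → ℝ) (hy : ∀ i, 0 < y i)
    (hQ : Q = P ^ (1 / 2 : ℝ) * ((U : Matrix n n ℂ) * diagonal (fun i => ((y i : ℝ) : ℂ)) *
      star (U : Matrix n n ℂ)) * P ^ (1 / 2 : ℝ)) :
    ∑ i, Real.log (max 1 (y i)) ≤ D P Q := by
  refine le_D hP hQp fun Z h1 h2 => ?_
  have hZ := pd_of_le hP h1
  set G := P ^ (-(1 / 2) : ℝ) with hG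
  have hGh : Gᴴ = G := herm_rpow _ _
  have hUU : star (U : Matrix n n ℂ) * (U : Matrix n n ℂ) = 1 := U.2.1
  set W := star (U : Matrix n n ℂ) * (G * Z * G) * (U : Matrix n n ℂ) with hW
  have e1 : G * P * G = 1 := by
    have : G * P * G = (G * P ^ (1 / 2 : ℝ)) * (P ^ (1 / 2 : ℝ) * G) := by
      conv_lhs => rw [← half_mul_half hP]
      noncomm_ring
    rw [this, hG, neg_mul_half hP, half_mul_neg hP, one_mul]
  have hW1 : 1 ≤ W := by
    have h3 := le_conj h1 hGh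
    rw [e1] at h3
    have h4 := star_left_conjugate_le_conjugate h3 (U : Matrix n n ℂ)
    rwa [mul_one, hUU] at h4
  have hW2 : diagonal (fun i => ((y i : ℝ) : ℂ)) ≤ W := by
    have h3 := le_conj h2 hGh
    have h4 := star_left_conjugate_le_conjugate h3 (U : Matrix n n ℂ)
    have h5 : star (U : Matrix n n ℂ) * (G * Q * G) * (U : Matrix n n ℂ) =
        diagonal (fun i => ((y i : ℝ) : ℂ)) := by
      rw [hQ]
      have h6 : star (U : Matrix n n ℂ) * (G * (P ^ (1 / 2 : ℝ) * ((U : Matrix n n ℂ) *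
          diagonal (fun i => ((y i : ℝ) : ℂ)) * star (U : Matrix n n ℂ)) * P ^ (1 / 2 : ℝ)) * G) *
          (U : Matrix n n ℂ) =
          star (U : Matrix n n ℂ) * (G * P ^ (1 / 2 : ℝ)) * (U : Matrix n n ℂ) *
          diagonal (fun i => ((y i : ℝ) : ℂ)) * (star (U : Matrix n n ℂ) *
          (P ^ (1 / 2 : ℝ) * G) * (U : Matrix n n ℂ)) := by
        noncomm_ring
      rw [h6, hG, neg_mul_half hP, half_mul_neg hP, mul_one, hUU, one_mul, mul_one]
    rwa [h5] at h4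
  have h3 := prod_le_d hy hW1 hW2
  have hGp : G.PosDef := posDef_rpow hP _
  have hdW : d W = d Z * (d G * d G) := by
    apply d_of_eq
    have hGZ : (G * Z * G).det = ((d Z * (d G * d G) : ℝ) : ℂ) := by
      rw [← d_conj hZ.posSemidef hGp.posSemidef]
      exact det_eq (psd_conj hZ.posSemidef hGh)
    rw [hW, det_mul_comm, ← mul_assoc]
    have : (U : Matrix n n ℂ) * star (U : Matrix n n ℂ) = 1 := U.2.2
    rw [this, one_mul, hGZ]
  have hdG : d G * d G * d P = 1 := by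
    have h4 : d (G * P * G) = d P * (d G * d G) := d_conj hP.posSemidef hGp.posSemidef
    rw [e1] at h4
    have h5 : d (1 : Matrix n n ℂ) = 1 := by simp [d]
    rw [h5] at h4
    linarith
  have hmpos : 0 < ∏ i, max 1 (y i) :=
    Finset.prod_pos fun i _ => lt_of_lt_of_le one_pos (le_max_left _ _)
  have h4 := Real.log_le_log hmpos h3
  rw [Real.log_prod (fun i _ => (lt_of_lt_of_le one_pos (le_max_left _ _)).ne')] at h4
  have h5 : Real.log (d W) = Real.log (d Z) - Real.log (d P) := by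
    have h6 : d G * d G = (d P)⁻¹ := eq_inv_of_mul_eq_one_left hdG
    rw [hdW, h6, Real.log_mul (d_pos hZ).ne' (inv_pos.2 (d_pos hP)).ne', Real.log_inv]
    ring
  rw [← h5]
  exact h4

end K4H30.DI
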