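import Mathlib

/-!
`log (1 + x)` as a positive mixture of the functions `log max(1, s x)`.
-/

open MeasureTheory Set Filter Topology

namespace K4H30.DI

/-- antiderivative -/
noncomputable def FF (x s : ℝ) : ℝ := -(Real.log (x * s) / (1 + s)) + Real.log (s / (1 + s))

theorem FF_deriv {x s : ℝ} (hx : 0 < x) (hs : 0 < s) :
    HasDerivAt (FF x) (Real.log (x * s) / (1 + s) ^ 2) s := by
  have h1 : HasDerivAt (fun s : ℝ => x * s) (x * 1) s := (hasDerivAt_id s).const_mul x
  have h2 : HasDerivAt (fun s : ℝ => Real.log (x * s)) ((x * 1) / (x * s)) s :=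
    h1.log (mul_pos hx hs).ne'
  have h3 : HasDerivAt (fun s : ℝ => 1 + s) 1 s := by
    simpa using (hasDerivAt_id s).const_add 1
  have hs1 : (1 + s) ≠ 0 := by positivity
  have h4 := h2.div h3 hs1
  have h5 := (hasDerivAt_id s).div h3 hs1
  have h6 := h5.log (x := s) (by
    simp only [Pi.div_apply, id_eq]
    positivity)
  have h7 := h4.neg.add h6
  refine (h7.congr_deriv ?_)
  simp only [Pi.div_apply, id_eq]
  field_simp
  ring

theorem FF_start {x : ℝ} (hx : 0 < x) : FF x (1 / x) = -Real.log (1 + x) := by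
  unfold FF
  have h1 : x * (1 / x) = 1 := by field_simp
  have h2 : 1 / x / (1 + 1 / x) = (1 + x)⁻¹ := by
    field_simp
    ring
  rw [h1, h2, Real.log_one, Real.log_inv]
  simp

theorem FF_tendsto {x : ℝ} (hx : 0 < x) : Tendsto (FF x) atTop (𝓝 0) := by
  have h1 : Tendsto (fun s : ℝ => s / (1 + s)) atTop (𝓝 1) := by
    have h2 : Tendsto (fun s : ℝ => 1 - 1 / (1 + s)) atTop (𝓝 (1 - 0)) := by
      refine tendsto_const_nhds.sub ?_
      exact tendsto_const_nhds.div_atTop (tendsto_atTop_add_const_left _ _ tendsto_id)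
    rw [sub_zero] at h2
    refine h2.congr' ?_
    filter_upwards [eventually_gt_atTop 0] with s hs
    field_simp
    ring
  have h3 : Tendsto (fun s : ℝ => Real.log (s / (1 + s))) atTop (𝓝 0) := by
    have := (Real.continuousAt_log (x := 1) one_ne_zero).tendsto.comp h1
    rwa [Real.log_one] at this
  have h4 : Tendsto (fun s : ℝ => Real.log (x * s) / (1 + s)) atTop (𝓝 0) := by
    have h5 : Tendsto (fun s : ℝ => Real.log s / s) atTop (𝓝 0) := by
      have := Real.isLittleO_log_id_atTop.tendsto_div_nhds_zero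
      exact this
    have h6 : Tendsto (fun s : ℝ => Real.log x / (1 + s)) atTop (𝓝 0) :=
      tendsto_const_nhds.div_atTop (tendsto_atTop_add_const_left _ _ tendsto_id)
    have h7 : Tendsto (fun s : ℝ => Real.log x / (1 + s) + Real.log s / s * (s / (1 + s)))
        atTop (𝓝 (0 + 0 * 1)) := h6.add (h5.mul h1)
    rw [zero_mul, add_zero] at h7
    refine h7.congr' ?_
    filter_upwards [eventually_gt_atTop 0] with s hs
    rw [Real.log_mul hx.ne' hs.ne']
    field_simp
  have h8 := h4.neg.add h3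
  rw [neg_zero, add_zero] at h8
  exact h8

theorem log_mixture {x : ℝ} (hx : 0 < x) :
    IntegrableOn (fun s => Real.log (max 1 (s * x)) / (1 + s) ^ 2) (Ioi 0) ∧
    ∫ s in Ioi 0, Real.log (max 1 (s * x)) / (1 + s) ^ 2 = Real.log (1 + x) := by
  have hx1 : (0 : ℝ) < 1 / x := by positivity
  have hcont : ContinuousWithinAt (FF x) (Ici (1 / x)) (1 / x) :=
    (FF_deriv hx hx1).continuousAt.continuousWithinAt
  have hder : ∀ s ∈ Ioi (1 / x), HasDerivAt (FF x) (Real.log (x * s) / (1 + s) ^ 2) s :=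
    fun s hs => FF_deriv hx (hx1.trans hs)
  have hbig : ∀ s ∈ Ioi (1 / x), 1 ≤ x * s := by
    intro s hs
    have : 1 / x < s := hs
    rw [div_lt_iff₀ hx] at this
    linarith
  have hpos : ∀ s ∈ Ioi (1 / x), 0 ≤ Real.log (x * s) / (1 + s) ^ 2 :=
    fun s hs => div_nonneg (Real.log_nonneg (hbig s hs)) (by positivity)
  have hlim := FF_tendsto hx
  have i1 := integrableOn_Ioi_deriv_of_nonneg hcont hder hpos hlim
  have i2 := integral_Ioi_of_hasDerivAt_of_nonneg hcont hder hpos hlim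
  have e1 : ∀ s ∈ Ioi (1 / x), Real.log (max 1 (s * x)) / (1 + s) ^ 2 =
      Real.log (x * s) / (1 + s) ^ 2 := by
    intro s hs
    rw [mul_comm s x, max_eq_right (hbig s hs)]
  have e0 : ∀ s ∈ Ioc 0 (1 / x), Real.log (max 1 (s * x)) / (1 + s) ^ 2 = 0 := by
    intro s hs
    have : s * x ≤ 1 := by
      have := hs.2
      rwa [le_div_iff₀ hx] at this
    rw [max_eq_left this, Real.log_one, zero_div]
  have j1 : IntegrableOn (fun s => Real.log (max 1 (s * x)) / (1 + s) ^ 2) (Ioi (1 / x)) :=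
    i1.congr_fun (fun s hs => (e1 s hs).symm) measurableSet_Ioi
  have j0 : IntegrableOn (fun s => Real.log (max 1 (s * x)) / (1 + s) ^ 2) (Ioc 0 (1 / x)) :=
    (integrableOn_zero (s := Ioc 0 (1 / x))).congr_fun (fun s hs => (e0 s hs).symm)
      measurableSet_Ioc
  have hU : Ioi (0 : ℝ) = Ioc 0 (1 / x) ∪ Ioi (1 / x) := (Ioc_union_Ioi_eq_Ioi hx1.le).symm
  refine ⟨?_, ?_⟩
  · rw [hU]
    exact j0.union j1
  · rw [hU, setIntegral_union (Ioc_disjoint_Ioi le_rfl) measurableSet_Ioi j0 j1,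
      setIntegral_congr_fun measurableSet_Ioc e0, setIntegral_congr_fun measurableSet_Ioi e1, i2,
      FF_start hx]
    simp

/-- from the inequalities for `log max(1, s x)` to the one for `log (1 + x)` -/
theorem sum_log_le {ι : Type} [Fintype ι] {x y : ι → ℝ} (hx : ∀ i, 0 < x i) (hy : ∀ i, 0 < y i)
    (h : ∀ s : ℝ, 0 < s → ∑ i, Real.log (max 1 (s * x i)) ≤ ∑ i, Real.log (max 1 (s * y i))) :
    ∑ i, Real.log (1 + x i) ≤ ∑ i, Real.log (1 + y i) := by
  have key : ∀ z : ι → ℝ, (∀ i, 0 < z i) →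
      IntegrableOn (fun s => ∑ i, Real.log (max 1 (s * z i)) / (1 + s) ^ 2) (Ioi 0) ∧
      ∑ i, Real.log (1 + z i) = ∫ s in Ioi 0, ∑ i, Real.log (max 1 (s * z i)) / (1 + s) ^ 2 := by
    intro z hz
    refine ⟨?_, ?_⟩
    · exact integrable_finsetSum _ fun i _ => (log_mixture (hz i)).1
    · rw [integral_finsetSum _ fun i _ => (log_mixture (hz i)).1]
      exact Finset.sum_congr rfl fun i _ => (log_mixture (hz i)).2.symm
  rw [(key x hx).2, (key y hy).2]
  refine setIntegral_mono_on (key x hx).1 (key y hy).1 measurableSet_Ioi fun s hs => ?_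
  rw [← Finset.sum_div, ← Finset.sum_div]
  exact div_le_div_of_nonneg_right (h s hs) (by positivity)

end K4H30.DI
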