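import Pool.Agent.K4H30.DI.PD

/-!
The determinantal inequality for positive semidefinite matrices.
-/

open Matrix
open scoped MatrixOrder ComplexOrder Matrix.Norms.L2Operator NNReal Topology

namespace K4H30.DI

variable {n : Type} [Fintype n] [DecidableEq n]

theorem contOn_rpow {r : ℝ} (hr : 0 ≤ r) :
    ContinuousOn (fun M : Matrix n n ℂ => M ^ r) {M | 0 ≤ M} := by
  have h : ContinuousOn (fun M : Matrix n n ℂ => cfc (fun x : ℝ≥0 => x ^ r) M) {M | 0 ≤ M} := by
    refine continuousOn_id.cfc_nnreal_of_mem_nhdsSet _ Filter.univ_mem (fun x hx => hx) ?_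
    exact (NNReal.continuous_rpow_const hr).continuousOn
  exact h

theorem cont_exp {A : Matrix n n ℂ} (hA : A.PosDef) : Continuous (fun r : ℝ => A ^ r) := by
  have h : (fun r : ℝ => A ^ r) = fun r => (hA.1.eigenvectorUnitary : Matrix n n ℂ) *
      diagonal (fun i => (((hA.1.eigenvalues i) ^ r : ℝ) : ℂ)) *
      (star (hA.1.eigenvectorUnitary : Matrix n n ℂ)) := by
    funext r
    exact rpow_spec hA.posSemidef r
  rw [h]
  refine (continuous_const.mul ?_).mul continuous_const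
  refine Continuous.matrix_diagonal ?_
  refine continuous_pi fun i => ?_
  refine Complex.continuous_ofReal.comp ?_
  exact Real.continuous_const_rpow (hA.eigenvalues_pos i).ne'

/-- left side -/
noncomputable def L (p : ℝ) (A B : Matrix n n ℂ) : ℝ := (A ^ 2 + A ^ p * B ^ p).det.re

/-- right side -/
noncomputable def R (p : ℝ) (A B : Matrix n n ℂ) : ℝ :=
  (A ^ 2 + (B * (A * A) * B) ^ (p / 2)).det.re

theorem pd_open {A B : Matrix n n ℂ} (hA : A.PosDef) (hB : B.PosDef) {p : ℝ} (hp : 0 < p)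
    (hp2 : p < 2) : (A ^ 2 + A ^ p * B ^ p).det ≤ (A ^ 2 + (B * (A * A) * B) ^ (p / 2)).det := by
  have hAA : (A * A).PosDef := by
    have := pd_conj (PosDef.one (n := n) (R := ℂ)) hA
    simpa using this
  have h := main_q hAA hB (q := p / 2) (by positivity) (by linarith)
  have e1 : (A * A) ^ (p / 2) = A ^ p := by
    have e0 : A * A = A ^ (2 : ℝ) := by
      have := CFC.rpow_natCast A 2 hA.posSemidef.nonneg
      rw [← pow_two, ← this]
      norm_num
    rw [e0, CFC.rpow_rpow_of_exponent_nonneg _ _ _ (by norm_num) (by positivity)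
      hA.posSemidef.nonneg]
    congr 1
    ring
  have e2 : 2 * (p / 2) = p := by ring
  rw [e1, e2] at h
  rw [pow_two]
  exact h

theorem pd_closed {A B : Matrix n n ℂ} (hA : A.PosDef) (hB : B.PosDef) {p : ℝ} (hp : 0 ≤ p)
    (hp2 : p ≤ 2) : L p A B ≤ R p A B := by
  have hcl : IsClosed {p : ℝ | L p A B ≤ R p A B} := by
    refine isClosed_le ?_ ?_
    · unfold L
      refine Complex.continuous_re.comp (Continuous.matrix_det ?_)
      exact continuous_const.add ((cont_exp hA).mul (cont_exp hB))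
    · unfold R
      have hAA : (A * A).PosDef := by
        have := pd_conj (PosDef.one (n := n) (R := ℂ)) hA
        simpa using this
      refine Complex.continuous_re.comp (Continuous.matrix_det ?_)
      refine continuous_const.add ?_
      exact (cont_exp (pd_conj hAA hB)).comp (continuous_id.div_const 2)
  have hsub : Set.Ioo (0 : ℝ) 2 ⊆ {p : ℝ | L p A B ≤ R p A B} := by
    intro p hp
    have := pd_open hA hB hp.1 hp.2
    rw [Complex.le_def] at this
    exact this.1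
  have hcc := hcl.closure_subset_iff.2 hsub
  rw [closure_Ioo (by norm_num)] at hcc
  exact hcc ⟨hp, hp2⟩

theorem psd_pos {A B : Matrix n n ℂ} (hA : A.PosSemidef) (hB : B.PosSemidef) {p : ℝ} (hp : 0 < p)
    (hp2 : p ≤ 2) : L p A B ≤ R p A B := by
  have hpath : ∀ {A : Matrix n n ℂ}, A.PosSemidef → ∀ ε ∈ Set.Ioi (0 : ℝ),
      (A + (ε : ℝ) • (1 : Matrix n n ℂ)).PosDef := by
    intro A hA ε hε
    exact (posDef_smul PosDef.one hε).posSemidef_add hA
  have hc : ∀ A : Matrix n n ℂ, Continuous fun ε : ℝ => A + ε • (1 : Matrix n n ℂ) := by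
    intro A
    fun_prop
  have hlim : ∀ A : Matrix n n ℂ, A.PosSemidef → Filter.Tendsto
      (fun ε : ℝ => A + ε • (1 : Matrix n n ℂ)) (𝓝[>] 0) (𝓝[{M | 0 ≤ M}] A) := by
    intro A hA
    refine tendsto_nhdsWithin_iff.2 ⟨?_, ?_⟩
    · have := (hc A).tendsto 0
      simp only [zero_smul, add_zero] at this
      exact this.mono_left nhdsWithin_le_nhds
    · filter_upwards [self_mem_nhdsWithin] with ε hε
      exact (hpath hA ε hε).posSemidef.nonneg
  have hlim' : ∀ A : Matrix n n ℂ, A.PosSemidef → Filter.Tendsto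
      (fun ε : ℝ => A + ε • (1 : Matrix n n ℂ)) (𝓝[>] 0) (𝓝 A) :=
    fun A hA => (hlim A hA).mono_right nhdsWithin_le_nhds
  have hA1 := hlim' A hA
  have hB1 := hlim' B hB
  have hA2 : Filter.Tendsto (fun ε : ℝ => (A + ε • (1 : Matrix n n ℂ)) ^ p) (𝓝[>] 0) (𝓝 (A ^ p)) :=
    ((contOn_rpow hp.le) A hA.nonneg).tendsto.comp (hlim A hA)
  have hB2 : Filter.Tendsto (fun ε : ℝ => (B + ε • (1 : Matrix n n ℂ)) ^ p) (𝓝[>] 0) (𝓝 (B ^ p)) :=
    ((contOn_rpow hp.le) B hB.nonneg).tendsto.comp (hlim B hB)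
  have hsq : ∀ {A : Matrix n n ℂ}, A.PosSemidef → (A * A).PosSemidef := by
    intro A hA
    have := psd_conj (PosSemidef.one (n := n) (R := ℂ)) hA.1
    simpa using this
  have hR : Filter.Tendsto (fun ε : ℝ => ((B + ε • (1 : Matrix n n ℂ)) *
      ((A + ε • (1 : Matrix n n ℂ)) * (A + ε • (1 : Matrix n n ℂ))) *
      (B + ε • (1 : Matrix n n ℂ))) ^ (p / 2)) (𝓝[>] 0) (𝓝 ((B * (A * A) * B) ^ (p / 2))) := by
    refine ((contOn_rpow (by positivity)) (B * (A * A) * B)
      (psd_conj (hsq hA) hB.1).nonneg).tendsto.comp ?_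
    refine tendsto_nhdsWithin_iff.2 ⟨(hB1.mul (hA1.mul hA1)).mul hB1, ?_⟩
    filter_upwards [self_mem_nhdsWithin] with ε hε
    exact (psd_conj (hsq (hpath hA ε hε).posSemidef) (hpath hB ε hε).1).nonneg
  have hdet : ∀ M : Matrix n n ℂ, Filter.Tendsto (fun M : Matrix n n ℂ => M.det.re) (𝓝 M)
      (𝓝 M.det.re) := fun M =>
    (Complex.continuous_re.comp (Continuous.matrix_det continuous_id)).tendsto M
  have hLlim : Filter.Tendsto (fun ε : ℝ => L p (A + ε • (1 : Matrix n n ℂ))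
      (B + ε • (1 : Matrix n n ℂ))) (𝓝[>] 0) (𝓝 (L p A B)) :=
    (hdet _).comp ((hA1.pow 2).add (hA2.mul hB2))
  have hRlim : Filter.Tendsto (fun ε : ℝ => R p (A + ε • (1 : Matrix n n ℂ))
      (B + ε • (1 : Matrix n n ℂ))) (𝓝[>] 0) (𝓝 (R p A B)) :=
    (hdet _).comp ((hA1.pow 2).add hR)
  refine le_of_tendsto_of_tendsto hLlim hRlim ?_
  filter_upwards [self_mem_nhdsWithin] with ε hε
  exact pd_closed (hpath hA ε hε) (hpath hB ε hε) hp.le hp2

theorem rpow_mul_rpow' {A : Matrix n n ℂ} (hA : A.PosSemidef) {r s : ℝ} (hr : 0 ≤ r) (hs : 0 ≤ s) :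
    A ^ r * A ^ s = A ^ (r + s) := by
  rw [rpow_spec hA r, rpow_spec hA s, rpow_spec hA (r + s)]
  set U := hA.1.eigenvectorUnitary
  have hU : star (U : Matrix n n ℂ) * (U : Matrix n n ℂ) = 1 := U.2.1
  have h : ∀ E F : Matrix n n ℂ, (U : Matrix n n ℂ) * E * star (U : Matrix n n ℂ) *
      ((U : Matrix n n ℂ) * F * star (U : Matrix n n ℂ)) =
      (U : Matrix n n ℂ) * (E * F) * star (U : Matrix n n ℂ) := by
    intro E F
    have : (U : Matrix n n ℂ) * E * star (U : Matrix n n ℂ) *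
      ((U : Matrix n n ℂ) * F * star (U : Matrix n n ℂ)) =
      (U : Matrix n n ℂ) * E * (star (U : Matrix n n ℂ) * (U : Matrix n n ℂ)) * F *
        star (U : Matrix n n ℂ) := by
      noncomm_ring
    rw [this, hU, mul_one]
    noncomm_ring
  rw [h, diagonal_mul_diagonal]
  congr 3
  funext i
  rw [← Complex.ofReal_mul, Real.rpow_add_of_nonneg (hA.eigenvalues_nonneg i) hr hs]

/-- the left side is real -/
theorem L_real {A B : Matrix n n ℂ} (hA : A.PosSemidef) {p : ℝ} (hp : 0 ≤ p)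
    (hp2 : p ≤ 2) : (A ^ 2 + A ^ p * B ^ p).det.im = 0 := by
  have e1 : A ^ 2 = A ^ p * A ^ (2 - p) := by
    rw [rpow_mul_rpow' hA hp (by linarith), ← CFC.rpow_natCast A 2 hA.nonneg]
    congr 1
    push_cast
    ring
  have e2 : A ^ 2 + A ^ p * B ^ p = A ^ p * (A ^ (2 - p) + B ^ p) := by
    rw [e1, mul_add]
  rw [e2, det_mul, det_eq (posSemidef_rpow A p),
    det_eq ((posSemidef_rpow A (2 - p)).add (posSemidef_rpow B p)), ← Complex.ofReal_mul,
    Complex.ofReal_im]

/-- the right side is real -/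
theorem R_real {A C : Matrix n n ℂ} (hA : A.PosSemidef) (p : ℝ) :
    (A ^ 2 + C ^ p).det.im = 0 := by
  have : (A ^ 2 + C ^ p).PosSemidef := (hA.pow 2).add (posSemidef_rpow _ _)
  rw [det_eq this, Complex.ofReal_im]

theorem final {A B : Matrix n n ℂ} (hA : A.PosSemidef) (hB : B.PosSemidef) {p : ℝ} (hp : 0 ≤ p)
    (hp2 : p ≤ 2) : (A ^ 2 + A ^ p * B ^ p).det ≤ (A ^ 2 + CFC.abs (A * B) ^ p).det := by
  rcases hp.eq_or_lt with rfl | hp'
  · rw [rpow_zero' hA, rpow_zero' hB, mul_one,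
      rpow_zero' (nonneg_iff_posSemidef.1 (CFC.abs_nonneg (A * B)))]
  · rw [Complex.le_def, L_real hA hp hp2, R_real hA p]
    refine ⟨?_, rfl⟩
    have := psd_pos hA hB hp' hp2
    unfold L R at this
    rw [abs_mul_rpow A B hA.1 hB.1 p hp]
    exact this

end K4H30.DI
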