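import Pool.Agent.K4H30.DI.Dist
import Pool.Agent.K4H30.DI.Integral

/-!
The determinantal inequality for positive definite matrices.
-/

open Matrix
open scoped MatrixOrder ComplexOrder Matrix.Norms.L2Operator NNReal

namespace K4H30.DI

variable {n : Type} [Fintype n] [DecidableEq n]

theorem smul_rpow {A : Matrix n n ℂ} (hA : A.PosSemidef) {c : ℝ} (hc : 0 ≤ c) (r : ℝ) :
    (c • A) ^ r = (c ^ r) • A ^ r := by
  have hcA : (c • A).PosSemidef := hA.smul hc
  rw [CFC.rpow_eq_cfc_real (ha := hcA.nonneg), CFC.rpow_eq_cfc_real (ha := hA.nonneg)]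
  have hfin : (spectrum ℝ A).Finite := finite_real_spectrum
  have e1 := cfc_comp_smul (S := ℝ) c (fun x : ℝ => x ^ r) A ((hfin.image _).continuousOn _) hA.1
  have e2 := cfc_smul (S := ℝ) (c ^ r) (fun x : ℝ => x ^ r) A (hfin.continuousOn _)
  refine e1.symm.trans (Eq.trans ?_ e2)
  refine cfc_congr fun x hx => ?_
  have hx0 : 0 ≤ x := spectrum_nonneg_of_nonneg hA.nonneg hx
  simp only [smul_eq_mul]
  exact Real.mul_rpow hc hx0

/-- the factorization used for the distance -/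
theorem fact {P Q : Matrix n n ℂ} (hP : P.PosDef)
    (hT : (P ^ (-(1 / 2) : ℝ) * Q * P ^ (-(1 / 2) : ℝ)).IsHermitian) (s : ℝ) :
    s • Q = P ^ (1 / 2 : ℝ) * ((hT.eigenvectorUnitary : Matrix n n ℂ) *
      diagonal (fun i => ((s * hT.eigenvalues i : ℝ) : ℂ)) *
      star (hT.eigenvectorUnitary : Matrix n n ℂ)) * P ^ (1 / 2 : ℝ) := by
  have e1 : diagonal (fun i => ((s * hT.eigenvalues i : ℝ) : ℂ)) =
      s • diagonal (fun i => ((hT.eigenvalues i : ℝ) : ℂ)) := by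
    rw [← diagonal_smul]
    congr 1
    funext i
    simp
  rw [e1, mul_smul_comm, smul_mul_assoc, ← spec hT, mul_smul_comm, smul_mul_assoc]
  congr 1
  have h2 := half_mul_neg hP
  have h3 := neg_mul_half hP
  have : P ^ (1 / 2 : ℝ) * (P ^ (-(1 / 2) : ℝ) * Q * P ^ (-(1 / 2) : ℝ)) * P ^ (1 / 2 : ℝ) =
      (P ^ (1 / 2 : ℝ) * P ^ (-(1 / 2) : ℝ)) * Q * (P ^ (-(1 / 2) : ℝ) * P ^ (1 / 2 : ℝ)) := by
    noncomm_ring
  rw [this, h2, h3, one_mul, mul_one]

theorem posDef_smul {A : Matrix n n ℂ} (hA : A.PosDef) {c : ℝ} (hc : 0 < c) : (c • A).PosDef :=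
  hA.smul hc

/-- scaled form of `D_main` -/
theorem D_main_smul {H B : Matrix n n ℂ} (hH : H.PosDef) (hB : B.PosDef) {q : ℝ} (hq : 0 < q)
    (hq1 : q < 1) {s : ℝ} (hs : 0 < s) :
    D (H ^ (1 - q)) (s • B ^ (2 * q)) ≤ D H (s • (B * H * B) ^ q) := by
  set c : ℝ := s ^ (1 / (2 * q)) with hc
  have hc0 : 0 < c := Real.rpow_pos_of_pos hs _
  have h := D_main hH (posDef_smul hB hc0) hq hq1
  have h1 : (c • B) ^ (2 * q) = s • B ^ (2 * q) := by
    rw [smul_rpow hB.posSemidef hc0.le, hc, ← Real.rpow_mul hs.le]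
    congr 1
    have : 1 / (2 * q) * (2 * q) = 1 := by field_simp
    rw [this, Real.rpow_one]
  have h2 : ((c • B) * H * (c • B)) ^ q = s • (B * H * B) ^ q := by
    have e : (c • B) * H * (c • B) = (c * c) • (B * H * B) := by
      rw [smul_mul_assoc, smul_mul_assoc, mul_smul_comm, smul_smul]
    rw [e, smul_rpow (psd_conj hH.posSemidef hB.1) (by positivity)]
    congr 1
    rw [hc, ← Real.rpow_add hs, ← Real.rpow_mul hs.le]
    have : (1 / (2 * q) + 1 / (2 * q)) * q = 1 := by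
      field_simp
      norm_num
    rw [this, Real.rpow_one]
  rwa [h1, h2] at h

/-- comparison of the determinants -/
theorem det_compare {P Q P' Q' : Matrix n n ℂ} (hP : P.PosDef) (hQ : Q.PosDef) (hP' : P'.PosDef)
    (hQ' : Q'.PosDef) (h : ∀ s : ℝ, 0 < s → D P (s • Q) ≤ D P' (s • Q')) :
    d (1 + P ^ (-(1 / 2) : ℝ) * Q * P ^ (-(1 / 2) : ℝ)) ≤
      d (1 + P' ^ (-(1 / 2) : ℝ) * Q' * P' ^ (-(1 / 2) : ℝ)) := by
  have hT : (P ^ (-(1 / 2) : ℝ) * Q * P ^ (-(1 / 2) : ℝ)).PosDef :=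
    pd_conj hQ (posDef_rpow hP _)
  have hT' : (P' ^ (-(1 / 2) : ℝ) * Q' * P' ^ (-(1 / 2) : ℝ)).PosDef :=
    pd_conj hQ' (posDef_rpow hP' _)
  have h1 : ∑ i, Real.log (1 + hT.1.eigenvalues i) ≤ ∑ i, Real.log (1 + hT'.1.eigenvalues i) := by
    refine sum_log_le (fun i => hT.eigenvalues_pos i) (fun i => hT'.eigenvalues_pos i)
      fun s hs => ?_
    calc ∑ i, Real.log (max 1 (s * hT.1.eigenvalues i)) ≤ D P (s • Q) :=
          sum_le_D hP (posDef_smul hQ hs) hT.1.eigenvectorUnitary _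
            (fun i => mul_pos hs (hT.eigenvalues_pos i)) (fact hP hT.1 s)
      _ ≤ D P' (s • Q') := h s hs
      _ ≤ ∑ i, Real.log (max 1 (s * hT'.1.eigenvalues i)) :=
          D_le_sum hP' hT'.1.eigenvectorUnitary _ (fact hP' hT'.1 s)
  rw [d_one_add hT.posSemidef, d_one_add hT'.posSemidef]
  have hp1 : ∀ i, (0 : ℝ) < 1 + hT.1.eigenvalues i := fun i => by
    have := hT.eigenvalues_pos i
    linarith
  have hp2 : ∀ i, (0 : ℝ) < 1 + hT'.1.eigenvalues i := fun i => by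
    have := hT'.eigenvalues_pos i
    linarith
  rw [← Real.log_prod (fun i _ => (hp1 i).ne'), ← Real.log_prod (fun i _ => (hp2 i).ne')] at h1
  exact (Real.log_le_log_iff (Finset.prod_pos fun i _ => hp1 i)
    (Finset.prod_pos fun i _ => hp2 i)).1 h1

/-- the inequality in the form `det (H + H^q B^{2q}) ≤ det (H + (B H B)^q)` -/
theorem main_q {H B : Matrix n n ℂ} (hH : H.PosDef) (hB : B.PosDef) {q : ℝ} (hq : 0 < q)
    (hq1 : q < 1) :
    (H + H ^ q * B ^ (2 * q)).det ≤ (H + (B * H * B) ^ q).det := by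
  have hP : (H ^ (1 - q)).PosDef := posDef_rpow hH _
  have hQ : (B ^ (2 * q)).PosDef := posDef_rpow hB _
  have hQ' : ((B * H * B) ^ q).PosDef := posDef_rpow (pd_conj hH hB) _
  have h := det_compare hP hQ hH hQ' fun s hs => D_main_smul hH hB hq hq1 hs
  have e1 : H + H ^ q * B ^ (2 * q) = H ^ q * (H ^ (1 - q) + B ^ (2 * q)) := by
    rw [mul_add, rpow_mul_rpow hH]
    have : q + (1 - q) = 1 := by ring
    rw [this, rpow_one' hH.posSemidef]
  have hsum : (H ^ (1 - q) + B ^ (2 * q)).PosDef := hP.add hQ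
  have e2 : (H + H ^ q * B ^ (2 * q)).det = ((d (H ^ q) * (d (H ^ (1 - q)) *
      d (1 + (H ^ (1 - q)) ^ (-(1 / 2) : ℝ) * B ^ (2 * q) * (H ^ (1 - q)) ^ (-(1 / 2) : ℝ))) : ℝ) :
      ℂ) := by
    rw [e1, det_mul, det_eq (posSemidef_rpow H q), det_eq hsum.posSemidef, d_add hP hQ.posSemidef]
    push_cast
    rfl
  have e3 : (H + (B * H * B) ^ q).det = ((d H *
      d (1 + H ^ (-(1 / 2) : ℝ) * (B * H * B) ^ q * H ^ (-(1 / 2) : ℝ)) : ℝ) : ℂ) := by
    rw [det_eq (hH.add hQ').posSemidef, d_add hH hQ'.posSemidef]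
  have e4 : d (H ^ q) * d (H ^ (1 - q)) = d H := by
    rw [← d_mul _ _ (posSemidef_rpow H q) (posSemidef_rpow H (1 - q)), rpow_mul_rpow hH]
    have : q + (1 - q) = 1 := by ring
    rw [this, rpow_one' hH.posSemidef]
  rw [e2, e3, Complex.real_le_real, ← mul_assoc, e4]
  exact mul_le_mul_of_nonneg_left h (d_pos hH).le

theorem abs_mul_rpow (A B : Matrix n n ℂ) (hA : Aᴴ = A) (hB : Bᴴ = B) (p : ℝ) (hp : 0 ≤ p) :
    (CFC.abs (A * B)) ^ p = (B * (A * A) * B) ^ (p / 2) := by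
  have h1 : star (A * B) * (A * B) = B * (A * A) * B := by
    rw [star_eq_conjTranspose, conjTranspose_mul, hA, hB]
    noncomm_ring
  have h2 : (0 : Matrix n n ℂ) ≤ B * (A * A) * B := by
    rw [← h1]
    exact star_mul_self_nonneg _
  rw [CFC.abs, h1, CFC.sqrt_eq_rpow,
    CFC.rpow_rpow_of_exponent_nonneg _ _ _ (by norm_num) hp h2]
  congr 1
  ring

end K4H30.DI
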